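import Pool.Agent.TH320.LRes1

set_option autoImplicit false

/-!
For `d ≥ 2` no two of the conditions (i) Borel, (ii) Baire measurable, (iii) measurable for every
Borel probability measure are equivalent for equivariant maps from the free part of `2^{ℤ^d}` to
subshifts of finite type.
-/

namespace Pool.Agent.Results.MP_6540cb_lc.NoTwoEquivalent

open Pool.Agent.W927

/-- For every `d ≥ 2` there are a subshift of finite type with a Baire measurable but (for some
measure) no measurable and hence no Borel equivariant map from the free part of `2^{ℤ^d}`, and a
subshift of finite type with measurable equivariant maps for all Borel probability measures but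
without a Borel one. -/
theorem result (d : ℕ) (hd : 2 ≤ d) :
    (∃ (k : ℕ) (S : Set (Conf d (Fin k))), IsSFT S ∧ HasBaire S ∧ ¬ HasMeasure S ∧ ¬ HasBorel S) ∧
    (∃ (k : ℕ) (S : Set (Conf d (Fin k))), IsSFT S ∧ HasMeasure S ∧ ¬ HasBorel S) :=
  Pool.Agent.TH320.LC.separation d hd

end Pool.Agent.Results.MP_6540cb_lc.NoTwoEquivalent
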